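import Pool.Agent.Helper55.RL.Spec

/-!
# The field generated by the roots: part BDP (from helper56, BDS, for all primes)
-/

set_option autoImplicit false
set_option linter.all false

open Polynomial
open scoped Classical

namespace Pool.Agent.Helper49.RL.BDP

open Pool.Agent.Helper55.RG Pool.Agent.Helper55.TT Pool.Agent.Helper55.UV Pool.Agent.Helper55.RL

/-- BDP. -/
theorem bdp (hMDG : S_MDG) : P_BDP := by
  intro p _ k k' _ _ _ _ _ s g k₁ _ n hs hg
  have hp0 : p ≠ 0 := (Fact.out : p.Prime).ne_zero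
  -- a primitive element of the constants
  obtain ⟨β, hβ⟩ := Field.exists_primitive_element k k₁
  have hβint : IsIntegral k (β : k') := (Algebra.IsIntegral.isIntegral (R := k) β).map k₁.val
  set m : ℕ := n + s.natDegree + n * g.natDegree + n * (s.natDegree * p) +
    (minpoly k (β : k')).natDegree with hm
  refine ⟨m.factorial, Nat.factorial_pos m, fun D hD hDn => ?_⟩
  -- the finite sets of roots
  let R1 : Finset k' := (D.map (algebraMap k k')).roots.toFinset
  let R2 : Finset k' := (s.map (algebraMap k k')).roots.toFinset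
  let G : k' → k'[X] := fun θ => g.map (eval₂RingHom (algebraMap k k') θ)
  let R3 : Finset k' := R1.biUnion fun θ => (G θ).roots.toFinset
  let W : k' → k' → k'[X] := fun θ r => X ^ p - C (θ - r)
  let R4 : Finset k' := R1.biUnion fun θ => R2.biUnion fun r => (W θ r).roots.toFinset
  let R5 : Finset k' := ((minpoly k (β : k')).map (algebraMap k k')).roots.toFinset
  have hinj : Function.Injective (algebraMap k k') := (algebraMap k k').injective
  have hroot : ∀ {f : k[X]}, f ≠ 0 → ∀ x : k',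
      x ∈ (f.map (algebraMap k k')).roots.toFinset ↔ aeval x f = 0 := by
    intro f hf x
    rw [Multiset.mem_toFinset, mem_roots ((Polynomial.map_ne_zero_iff hinj).2 hf), IsRoot.def,
      eval_map, aeval_def]
  have hR1 : ∀ x, x ∈ R1 ↔ aeval x D = 0 := hroot hD
  have hR2 : ∀ x, x ∈ R2 ↔ aeval x s = 0 := hroot hs
  have hGm : ∀ θ, (G θ).Monic := fun θ => hg.map _
  have hG : ∀ θ b, b ∈ (G θ).roots.toFinset ↔ ev2 (algebraMap k k') θ b g = 0 := by
    intro θ b
    rw [Multiset.mem_toFinset, mem_roots (hGm θ).ne_zero, IsRoot.def]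
    change eval b (g.map _) = 0 ↔ _
    rw [eval_map]
    rfl
  have hWm : ∀ θ r, (W θ r).Monic := fun θ r => monic_X_pow_sub_C _ hp0
  have hW : ∀ θ r w, w ∈ (W θ r).roots.toFinset ↔ w ^ p = θ - r := by
    intro θ r w
    rw [Multiset.mem_toFinset, mem_roots (hWm θ r).ne_zero, IsRoot.def]
    change eval w (X ^ p - C (θ - r)) = 0 ↔ _
    rw [eval_sub, eval_pow, eval_X, eval_C, sub_eq_zero]
  have hR5 : ∀ x, x ∈ R5 ↔ aeval x (minpoly k (β : k')) = 0 := hroot (minpoly.ne_zero hβint)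
  have hR3 : ∀ x, x ∈ R3 ↔ ∃ θ, aeval θ D = 0 ∧ ev2 (algebraMap k k') θ x g = 0 := by
    intro x
    rw [Finset.mem_biUnion]
    constructor
    · rintro ⟨θ, h1, h2⟩
      exact ⟨θ, (hR1 θ).1 h1, (hG θ x).1 h2⟩
    · rintro ⟨θ, h1, h2⟩
      exact ⟨θ, (hR1 θ).2 h1, (hG θ x).2 h2⟩
  have hR4 : ∀ x, x ∈ R4 ↔ ∃ θ r, aeval θ D = 0 ∧ aeval r s = 0 ∧ x ^ p = θ - r := by
    intro x
    rw [Finset.mem_biUnion]
    constructor
    · rintro ⟨θ, h1, h2⟩
      obtain ⟨r, h3, h4⟩ := Finset.mem_biUnion.1 h2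
      exact ⟨θ, r, (hR1 θ).1 h1, (hR2 r).1 h3, (hW θ r x).1 h4⟩
    · rintro ⟨θ, r, h1, h2, h3⟩
      exact ⟨θ, (hR1 θ).2 h1, Finset.mem_biUnion.2 ⟨r, (hR2 r).2 h2, (hW θ r x).2 h3⟩⟩
  -- the cardinalities
  have hcr : ∀ f : k'[X], f.roots.toFinset.card ≤ f.natDegree := fun f =>
    (Multiset.toFinset_card_le _).trans (card_roots' f)
  have hc1 : R1.card ≤ n := (hcr _).trans ((natDegree_map_le).trans hDn)
  have hc2 : R2.card ≤ s.natDegree := (hcr _).trans natDegree_map_le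
  have hc3 : R3.card ≤ n * g.natDegree := by
    refine (Finset.card_biUnion_le_card_mul _ _ g.natDegree fun θ _ => ?_).trans
      (Nat.mul_le_mul_right _ hc1)
    exact (hcr _).trans natDegree_map_le
  have hc4 : R4.card ≤ n * (s.natDegree * p) := by
    refine (Finset.card_biUnion_le_card_mul _ _ (s.natDegree * p) fun θ _ => ?_).trans
      (Nat.mul_le_mul_right _ hc1)
    refine (Finset.card_biUnion_le_card_mul _ _ p fun r _ => ?_).trans
      (Nat.mul_le_mul_right _ hc2)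
    refine (hcr _).trans ?_
    change (X ^ p - C (θ - r)).natDegree ≤ p
    rw [natDegree_X_pow_sub_C]
  have hc5 : R5.card ≤ (minpoly k (β : k')).natDegree := (hcr _).trans natDegree_map_le
  let B : Finset k' := R1 ∪ R2 ∪ R3 ∪ R4 ∪ R5
  have hB : B.card ≤ m := by
    calc B.card ≤ (R1 ∪ R2 ∪ R3 ∪ R4).card + R5.card := Finset.card_union_le _ _
      _ ≤ ((R1 ∪ R2 ∪ R3).card + R4.card) + R5.card := by gcongr; exact Finset.card_union_le _ _
      _ ≤ (((R1 ∪ R2).card + R3.card) + R4.card) + R5.card := by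
        gcongr; exact Finset.card_union_le _ _
      _ ≤ (((R1.card + R2.card) + R3.card) + R4.card) + R5.card := by
        gcongr; exact Finset.card_union_le _ _
      _ ≤ m := by
        rw [hm]
        gcongr
  have hmem : ∀ x, x ∈ B ↔ x ∈ R1 ∨ x ∈ R2 ∨ x ∈ R3 ∨ x ∈ R4 ∨ x ∈ R5 := by
    intro x
    simp only [B, Finset.mem_union, or_assoc]
  have hσae : ∀ (σ : k' ≃ₐ[k] k') (f : k[X]) (x : k'), aeval x f = 0 → aeval (σ x) f = 0 := by
    intro σ f x hx
    have h1 := Polynomial.aeval_algHom_apply (σ : k' →ₐ[k] k') x f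
    rw [hx, map_zero] at h1
    exact h1
  have hσev : ∀ (σ : k' ≃ₐ[k] k') (θ b : k'), ev2 (algebraMap k k') θ b g = 0 →
      ev2 (algebraMap k k') (σ θ) (σ b) g = 0 := by
    intro σ θ b h
    have h1 : σ (ev2 (algebraMap k k') θ b g) = ev2 (algebraMap k k') (σ θ) (σ b) g := by
      have h2 := Polynomial.hom_eval₂ g (eval₂RingHom (algebraMap k k') θ) (σ : k' →+* k') b
      have h3 : ((σ : k' →+* k').comp (eval₂RingHom (algebraMap k k') θ)) =
          eval₂RingHom (algebraMap k k') (σ θ) := by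
        refine Polynomial.ringHom_ext (fun a => ?_) ?_
        · simp
        · simp
      rw [h3] at h2
      exact h2
    rw [← h1, h, map_zero]
  obtain ⟨M, hM1, hM2, hM3, hM4⟩ := hMDG k k' (B : Set k') m B.finite_toSet (by
    rw [Set.ncard_coe_finset]
    exact hB) (by
    intro σ x hx
    rw [Finset.mem_coe, hmem] at hx ⊢
    rcases hx with h | h | h | h | h
    · exact Or.inl ((hR1 _).2 (hσae σ _ _ ((hR1 _).1 h)))
    · exact Or.inr (Or.inl ((hR2 _).2 (hσae σ _ _ ((hR2 _).1 h))))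
    · obtain ⟨θ, h1, h2⟩ := (hR3 _).1 h
      exact Or.inr (Or.inr (Or.inl ((hR3 _).2 ⟨σ θ, hσae σ _ _ h1, hσev σ _ _ h2⟩)))
    · obtain ⟨θ, r, h1, h2, h3⟩ := (hR4 _).1 h
      refine Or.inr (Or.inr (Or.inr (Or.inl ((hR4 _).2 ⟨σ θ, σ r, hσae σ _ _ h1,
        hσae σ _ _ h2, ?_⟩))))
      rw [← map_pow, h3, map_sub]
    · exact Or.inr (Or.inr (Or.inr (Or.inr ((hR5 _).2 (hσae σ _ _ ((hR5 _).1 h)))))))
  have hBM : ∀ x, x ∈ B → x ∈ M := fun x hx => hM4 (Finset.mem_coe.2 hx)
  refine ⟨M, hM1, hM2, hM3, ?_, ?_, ?_, ?_, ?_⟩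
  · have hβM : (β : k') ∈ M := hBM _ ((hmem _).2 (Or.inr (Or.inr (Or.inr (Or.inr
      ((hR5 _).2 (minpoly.aeval _ _)))))))
    have h1 : k₁ = IntermediateField.adjoin k {(β : k')} := by
      have h2 := congrArg (IntermediateField.map k₁.val) hβ
      rw [IntermediateField.adjoin_map, Set.image_singleton] at h2
      have h3 : IntermediateField.map k₁.val ⊤ = k₁ := by
        ext x
        simp
      rw [h3] at h2
      exact h2.symm
    rw [h1, IntermediateField.adjoin_simple_le_iff]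
    exact hβM
  · intro θ hθ
    exact hBM _ ((hmem _).2 (Or.inl ((hR1 _).2 hθ)))
  · intro r hr
    exact hBM _ ((hmem _).2 (Or.inr (Or.inl ((hR2 _).2 hr))))
  · intro θ b hθ hb
    exact hBM _ ((hmem _).2 (Or.inr (Or.inr (Or.inl ((hR3 _).2 ⟨θ, hθ, hb⟩)))))
  · intro θ r w hθ hr hw
    exact hBM _ ((hmem _).2 (Or.inr (Or.inr (Or.inr (Or.inl ((hR4 _).2 ⟨θ, r, hθ, hr, hw⟩))))))

end Pool.Agent.Helper49.RL.BDP
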